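import Pool.Agent.helper4.GA.Spec

set_option autoImplicit false

/-!
# Row ga:FLP: flips
-/

open Finset
open Pool.Agent.helper32.Cant

namespace Pool.Agent.GA

theorem FLP_sgn (b : Bool) : sgn (!b) = - sgn b := by
  cases b <;> rfl

theorem FLP_sg {n : ℕ} {i : ℕ} (hi : i < n) (w : Word n) : sg i w = sgn (w ⟨i, hi⟩) := by
  unfold sg
  rw [dif_pos hi]

theorem FLP_sg_flp {n : ℕ} {i : ℕ} (hi : i < n) (w : Word n) : sg i (flp i w) = - sg i w := by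
  rw [FLP_sg hi, FLP_sg hi, ← FLP_sgn]
  unfold flp
  rw [if_pos rfl]

theorem FLP_flp {n : ℕ} (i : ℕ) (w : Word n) : flp i (flp i w) = w := by
  funext l
  unfold flp
  by_cases h : (l : ℕ) = i
  · rw [if_pos h, if_pos h, Bool.not_not]
  · rw [if_neg h, if_neg h]

theorem FLP_E {n : ℕ} {i : ℕ} (hi : i < n) (w : Word n) :
    E (flp i w) = E w - 2 * sg i w * 3 ^ (n - 1 - i) := by
  unfold E
  rw [← Finset.add_sum_erase _ _ (Finset.mem_univ (⟨i, hi⟩ : Fin n)),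
    ← Finset.add_sum_erase Finset.univ (fun l : Fin n => sgn (w l) * 3 ^ (n - 1 - (l : ℕ)))
      (Finset.mem_univ (⟨i, hi⟩ : Fin n))]
  have h1 : ∑ l ∈ Finset.univ.erase (⟨i, hi⟩ : Fin n), sgn (flp i w l) * 3 ^ (n - 1 - (l : ℕ)) =
      ∑ l ∈ Finset.univ.erase (⟨i, hi⟩ : Fin n), sgn (w l) * 3 ^ (n - 1 - (l : ℕ)) := by
    apply Finset.sum_congr rfl
    intro l hl
    have hne : (l : ℕ) ≠ i := fun h => (Finset.ne_of_mem_erase hl) (Fin.ext h)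
    unfold flp
    rw [if_neg hne]
  have h2 : sgn (flp i w ⟨i, hi⟩) = - sg i w := by
    rw [← FLP_sg_flp hi, FLP_sg hi]
  have h3 : sgn (w ⟨i, hi⟩) = sg i w := (FLP_sg hi w).symm
  rw [h1]
  show sgn (flp i w ⟨i, hi⟩) * 3 ^ (n - 1 - i) + _ = sgn (w ⟨i, hi⟩) * 3 ^ (n - 1 - i) + _ - _
  rw [h2, h3]
  ring

theorem FLP_invol {n : ℕ} {i : ℕ} (hi : i < n) (ρ : ℤ) (p : St n) :
    Psi i ρ (Psi i ρ p) = p := by
  unfold Psi
  show (p.1 + ((2 * sg i p.2 * ρ * 3 ^ (n - 1 - i) : ℤ) : ZMod (3 ^ (2 * n)))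
    + ((2 * sg i (flp i p.2) * ρ * 3 ^ (n - 1 - i) : ℤ) : ZMod (3 ^ (2 * n))),
    flp i (flp i p.2)) = p
  rw [FLP_flp, FLP_sg_flp hi]
  apply Prod.ext
  · show p.1 + ((2 * sg i p.2 * ρ * 3 ^ (n - 1 - i) : ℤ) : ZMod (3 ^ (2 * n)))
      + ((2 * (- sg i p.2) * ρ * 3 ^ (n - 1 - i) : ℤ) : ZMod (3 ^ (2 * n))) = p.1
    push_cast
    ring
  · rfl

theorem FLP : FLP_stmt := by
  intro n c i ρ hi
  refine ⟨FLP_invol hi ρ, ?_, ?_, ?_⟩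
  · intro p
    rw [FLP_sg hi]
    cases p.2 ⟨i, hi⟩
    · exact Or.inr rfl
    · exact Or.inl rfl
  · intro p x
    show ((3 ^ n * ((x : ℕ) : ℤ) + (c.R x : ℤ) * E (flp i p.2) : ℤ) : ZMod (3 ^ (2 * n)))
      + (p.1 + ((2 * sg i p.2 * ρ * 3 ^ (n - 1 - i) : ℤ) : ZMod (3 ^ (2 * n)))) =
      (((3 ^ n * ((x : ℕ) : ℤ) + (c.R x : ℤ) * E p.2 : ℤ) : ZMod (3 ^ (2 * n))) + p.1)
      + ((-(2 * sg i p.2 * ((c.R x : ℤ) - ρ) * 3 ^ (n - 1 - i)) : ℤ) : ZMod (3 ^ (2 * n)))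
    rw [FLP_E hi]
    push_cast
    ring
  · intro f
    have h1 : Function.Involutive (Psi i ρ : St n → St n) := FLP_invol hi ρ
    exact Function.Bijective.sum_comp h1.bijective f

end Pool.Agent.GA
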